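import Mathlib

/-!
# Project CB-ell, piece R2: `ℓ`-th powers modulo ideals with good prime factors
-/

set_option autoImplicit false

namespace Pool.Agent.Helper12.SB

open NumberField

theorem dvd_div_prime {l m M J : ℕ} (hl : l.Prime) (hmM : m ∣ M) (h1 : l ^ J ∣ M)
    (h2 : ¬ l ^ J ∣ m) : m ∣ M / l := by
  obtain ⟨k, rfl⟩ := hmM
  by_cases hk : l ∣ k
  · obtain ⟨j, rfl⟩ := hk
    refine ⟨j, ?_⟩
    have : m * (l * j) = l * (m * j) := by ring
    rw [this, Nat.mul_div_cancel_left _ hl.pos]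
  · exfalso
    apply h2
    have hc : Nat.Coprime (l ^ J) k := by
      apply Nat.Coprime.pow_left
      exact (Nat.Prime.coprime_iff_not_dvd hl).2 hk
    exact hc.dvd_of_dvd_mul_right h1

theorem card_sub_one_dvd {k k' : Type*} [Field k] [Fintype k] [Field k'] [Fintype k']
    (f : k →+* k') : Fintype.card k - 1 ∣ Fintype.card k' - 1 := by
  letI := f.toAlgebra
  rw [Module.card_eq_pow_finrank (K := k) (V := k')]
  simpa using Nat.sub_dvd_pow_sub_pow (Fintype.card k) 1 (Module.finrank k k')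

/-- In a finite field, `x ^ ((q - 1) / l) = 1` and `l ∣ q - 1` imply that `x` is an `l`-th
power. -/
theorem exists_pow_eq {k : Type*} [Field k] [Fintype k] {l : ℕ} (hl : 0 < l)
    (hd : l ∣ Fintype.card k - 1) {x : k} (hx : x ≠ 0)
    (h : x ^ ((Fintype.card k - 1) / l) = 1) : ∃ y : k, y ^ l = x := by
  classical
  obtain ⟨g, hg⟩ := IsCyclic.exists_generator (α := kˣ)
  have hcard : Fintype.card kˣ = Fintype.card k - 1 := Fintype.card_units k
  have hord : orderOf g = Fintype.card k - 1 := by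
    rw [← hcard, ← Nat.card_eq_fintype_card]
    exact orderOf_eq_card_of_forall_mem_zpowers hg
  obtain ⟨n, hn⟩ := (Submonoid.mem_powers_iff _ _).1
    ((mem_powers_iff_mem_zpowers).2 (hg (Units.mk0 x hx)))
  have h1 : (Units.mk0 x hx) ^ ((Fintype.card k - 1) / l) = 1 := by
    apply Units.ext
    simpa using h
  rw [← hn, ← pow_mul] at h1
  have h2 : Fintype.card k - 1 ∣ n * ((Fintype.card k - 1) / l) := by
    rw [← hord]
    exact orderOf_dvd_of_pow_eq_one (by rw [hord]; exact h1)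
  obtain ⟨c, hc⟩ := hd
  have hpos : 0 < Fintype.card k - 1 := by
    have := Fintype.one_lt_card (α := k)
    omega
  have hcpos : 0 < c := by
    rcases Nat.eq_zero_or_pos c with h0 | h0
    · rw [h0, mul_zero] at hc
      omega
    · exact h0
  rw [hc, Nat.mul_div_cancel_left _ hl] at h2
  have h3 : l ∣ n := Nat.dvd_of_mul_dvd_mul_right hcpos h2
  obtain ⟨j, rfl⟩ := h3
  refine ⟨((g ^ j : kˣ) : k), ?_⟩
  have h4 : ((g ^ (l * j) : kˣ) : k) = x := by
    rw [hn]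
    simp
  rw [← h4, mul_comm l j, pow_mul]
  simp

/-- an `l`-th power in a finite field -/
theorem isPow_map {k k' : Type*} [Field k] [Fintype k] [Field k'] [Fintype k'] (f : k →+* k')
    {l J : ℕ} (hl : l.Prime) (h1 : l ^ J ∣ Fintype.card k' - 1)
    (h2 : ¬ l ^ J ∣ Fintype.card k - 1) {x : k} (hx : x ≠ 0) : ∃ y : k', y ^ l = f x := by
  have hfx : f x ≠ 0 := (map_ne_zero f).2 hx
  have hJ : J ≠ 0 := by
    rintro rfl
    exact h2 (by simp)
  have hd : l ∣ Fintype.card k' - 1 := (dvd_pow_self l hJ).trans h1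
  apply exists_pow_eq hl.pos hd hfx
  obtain ⟨t, ht⟩ := dvd_div_prime hl (card_sub_one_dvd f) h1 h2
  rw [ht, pow_mul, ← map_pow, FiniteField.pow_card_sub_one_eq_one x hx, map_one, one_pow]

theorem prime_pow_dvd {k' : Type*} [Field k'] [Fintype k'] {l J : ℕ} (hl : l.Prime) {z : k'}
    (hz1 : z ^ l ^ J = 1) (hz : ∀ j, J = j + 1 → z ^ l ^ j ≠ 1) :
    l ^ J ∣ Fintype.card k' - 1 := by
  cases J with
  | zero => simp
  | succ j =>
    haveI : Fact (Nat.Prime l) := ⟨hl⟩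
    rw [← orderOf_eq_prime_pow (hz j rfl) hz1]
    apply orderOf_dvd_of_pow_eq_one
    apply FiniteField.pow_card_sub_one_eq_one
    rintro rfl
    rw [zero_pow (pow_ne_zero _ hl.ne_zero)] at hz1
    exact zero_ne_one hz1

/-- `(N p - 1) ∣ (N q - 1) / l`, and `N q ≡ 1` modulo `l ^ J`. -/
theorem pow_res {K L : Type*} [Field K] [NumberField K] [Field L] [NumberField L] [Algebra K L]
    {l J : ℕ} (hl : l.Prime) {ζ : L} (hζ : IsPrimitiveRoot ζ (l ^ J)) {p : Ideal (𝓞 K)}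
    (hp : p.IsPrime) (hp0 : p ≠ ⊥) (hlp : (l : 𝓞 K) ∉ p) (hJ : ¬ Ideal.absNorm p ≡ 1 [MOD l ^ J])
    {q : Ideal (𝓞 L)} (hq : q.IsPrime) (hpq : p = q.comap (algebraMap (𝓞 K) (𝓞 L)))
    {x : 𝓞 K} (hx : x ∉ p) : ∃ γ : 𝓞 L, algebraMap (𝓞 K) (𝓞 L) x - γ ^ l ∈ q := by
  classical
  have hq0 : q ≠ ⊥ := by
    rintro rfl
    apply hp0
    rw [hpq, ← RingHom.ker_eq_comap_bot]
    exact (RingHom.injective_iff_ker_eq_bot _).1
      (FaithfulSMul.algebraMap_injective (𝓞 K) (𝓞 L))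
  haveI := hp.isMaximal hp0
  haveI := hq.isMaximal hq0
  letI : Field (𝓞 K ⧸ p) := Ideal.Quotient.field p
  letI : Field (𝓞 L ⧸ q) := Ideal.Quotient.field q
  haveI : Finite (𝓞 K ⧸ p) := Ideal.finiteQuotientOfFreeOfNeBot p hp0
  haveI : Finite (𝓞 L ⧸ q) := Ideal.finiteQuotientOfFreeOfNeBot q hq0
  letI : Fintype (𝓞 K ⧸ p) := Fintype.ofFinite _
  letI : Fintype (𝓞 L ⧸ q) := Fintype.ofFinite _
  have hN : Ideal.absNorm p = Fintype.card (𝓞 K ⧸ p) := by
    rw [Ideal.absNorm_apply, Submodule.cardQuot_apply, Nat.card_eq_fintype_card]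
  let f : 𝓞 K ⧸ p →+* 𝓞 L ⧸ q := Ideal.quotientMap q (algebraMap (𝓞 K) (𝓞 L)) (le_of_eq hpq)
  rw [hN] at hJ
  have hne : ¬ l ^ J ∣ Fintype.card (𝓞 K ⧸ p) - 1 := by
    intro h
    apply hJ
    exact ((Nat.modEq_iff_dvd' Fintype.card_pos).2 h).symm
  have hlq : (l : 𝓞 L) ∉ q := by
    intro h
    apply hlp
    rw [hpq, Ideal.mem_comap, map_natCast]
    exact h
  have hint : IsIntegral ℤ ζ := hζ.isIntegral (pow_pos hl.pos _)
  let z : 𝓞 L := ⟨ζ, hint⟩
  have hz1 : (Ideal.Quotient.mk q z) ^ l ^ J = 1 := by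
    have h4 : z ^ l ^ J = 1 := by
      apply RingOfIntegers.ext
      push_cast
      exact hζ.pow_eq_one
    rw [← map_pow, h4, map_one]
  have hz : ∀ j, J = j + 1 → (Ideal.Quotient.mk q z) ^ l ^ j ≠ 1 := by
    rintro j rfl h1
    have hprim : IsPrimitiveRoot (ζ ^ l ^ j) l := by
      apply hζ.pow (pow_pos hl.pos _)
      rw [pow_succ]
    have hsum : ∑ i ∈ Finset.range l, (ζ ^ l ^ j) ^ i = 0 :=
      hprim.geom_sum_eq_zero hl.one_lt
    have hsum' : ∑ i ∈ Finset.range l, (z ^ l ^ j) ^ i = 0 := by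
      apply RingOfIntegers.ext
      push_cast
      exact hsum
    apply hlq
    rw [← Ideal.Quotient.eq_zero_iff_mem, map_natCast]
    have h2 := congrArg (Ideal.Quotient.mk q) hsum'
    rw [map_sum, map_zero] at h2
    rw [← h2]
    have h3 : ∀ i ∈ Finset.range l, (Ideal.Quotient.mk q) ((z ^ l ^ j) ^ i) = 1 := by
      intro i _
      rw [map_pow, map_pow, h1, one_pow]
    rw [Finset.sum_congr rfl h3]
    simp
  have hdvd := prime_pow_dvd hl hz1 hz
  have hx' : Ideal.Quotient.mk p x ≠ 0 := by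
    rw [Ne, Ideal.Quotient.eq_zero_iff_mem]
    exact hx
  obtain ⟨y, hy⟩ := isPow_map f hl hdvd hne hx'
  obtain ⟨γ, rfl⟩ := Ideal.Quotient.mk_surjective y
  refine ⟨γ, ?_⟩
  rw [← Ideal.Quotient.eq_zero_iff_mem, map_sub, map_pow, sub_eq_zero, hy]
  simp [f]

/-- Newton: from an `l`-th power modulo `q` to an `l`-th power modulo `q ^ n`. -/
theorem lift_pow {R : Type*} [CommRing R] {q : Ideal R} (hq : q.IsMaximal) {l : ℕ} (hl : 0 < l)
    (hlq : (l : R) ∉ q) {c : R} (hc : c ∉ q) {γ : R} (hγ : c - γ ^ l ∈ q) (n : ℕ) :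
    ∃ r : R, c - r ^ l ∈ q ^ (n + 1) := by
  induction n with
  | zero => exact ⟨γ, by simpa using hγ⟩
  | succ n ih =>
    obtain ⟨r, hr⟩ := ih
    have hrq : c - r ^ l ∈ q := Ideal.pow_le_self (Nat.succ_ne_zero n) hr
    have hrn : r ∉ q := by
      intro h
      apply hc
      have : c = (c - r ^ l) + r ^ l := by ring
      rw [this]
      exact q.add_mem hrq (Ideal.pow_mem_of_mem q h l hl)
    have h2r : (l : R) * r ^ (l - 1) ∉ q := by
      intro h
      rcases hq.isPrime.mem_or_mem h with h | h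
      · exact hlq h
      · exact hrn (hq.isPrime.mem_of_pow_mem _ h)
    obtain ⟨u, i, hi, hu⟩ := hq.exists_inv h2r
    refine ⟨r + u * (c - r ^ l), ?_⟩
    obtain ⟨k, hk⟩ := Polynomial.powAddExpansion r (u * (c - r ^ l)) l
    have e : c - (r + u * (c - r ^ l)) ^ l =
        i * (c - r ^ l) - (k * (u * (c - r ^ l))) * (u * (c - r ^ l)) := by
      rw [hk]
      linear_combination (-(c - r ^ l)) * hu
    rw [e]
    apply Ideal.sub_mem
    · rw [pow_succ' q (n + 1)]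
      exact Ideal.mul_mem_mul hi hr
    · rw [pow_succ q (n + 1)]
      exact Ideal.mul_mem_mul (Ideal.mul_mem_left _ _ (Ideal.mul_mem_left _ _ hr))
        (Ideal.mul_mem_left _ _ hrq)

theorem pow_sub_mem {R : Type*} [CommRing R] (I : Ideal R) {c r s : R} (l : ℕ)
    (h : c - r ^ l ∈ I) (h' : s - r ∈ I) : c - s ^ l ∈ I := by
  have h1 : s ^ l - r ^ l ∈ I := by
    obtain ⟨t, ht⟩ := sub_dvd_pow_sub_pow s r l
    rw [ht]
    exact I.mul_mem_right _ h'
  have e : c - s ^ l = (c - r ^ l) - (s ^ l - r ^ l) := by ring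
  rw [e]
  exact I.sub_mem h h1

/-- Chinese remainder theorem for `l`-th powers. -/
theorem crt_pow {R : Type*} [CommRing R] [IsDedekindDomain R] {c : R} {l : ℕ} (hl : 0 < l)
    (I : Ideal R) :
    I ≠ 0 → (∀ q : Ideal R, q.IsPrime → I ≤ q → (l : R) ∉ q ∧ c ∉ q ∧ ∃ γ, c - γ ^ l ∈ q) →
      ∃ r, c - r ^ l ∈ I := by
  refine UniqueFactorizationMonoid.induction_on_coprime
    (P := fun I : Ideal R => I ≠ 0 →
      (∀ q : Ideal R, q.IsPrime → I ≤ q → (l : R) ∉ q ∧ c ∉ q ∧ ∃ γ, c - γ ^ l ∈ q) →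
      ∃ r, c - r ^ l ∈ I) I ?_ ?_ ?_ ?_
  · intro h
    exact absurd rfl h
  · intro x hx _ _
    refine ⟨0, ?_⟩
    rw [Ideal.isUnit_iff.1 hx]
    exact Submodule.mem_top
  · intro p i hp h0 h
    cases i with
    | zero => exact ⟨0, by simp⟩
    | succ n =>
      have hpp : p.IsPrime := Ideal.isPrime_of_prime hp
      have hp0 : p ≠ ⊥ := hp.ne_zero
      obtain ⟨h2, hc, γ, hγ⟩ := h p hpp (Ideal.pow_le_self (Nat.succ_ne_zero n))
      exact lift_pow (hpp.isMaximal hp0) hl h2 hc hγ n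
  · intro x y hxy ihx ihy h0 h
    have hx0 : x ≠ 0 := left_ne_zero_of_mul h0
    have hy0 : y ≠ 0 := right_ne_zero_of_mul h0
    obtain ⟨r, hr⟩ := ihx hx0 (fun q hq hle => h q hq (Ideal.mul_le_left.trans hle))
    obtain ⟨s, hs⟩ := ihy hy0 (fun q hq hle => h q hq (Ideal.mul_le_right.trans hle))
    have hcop : x ⊔ y = ⊤ := by
      apply Ideal.isUnit_iff.1
      exact hxy (Ideal.dvd_iff_le.2 le_sup_left) (Ideal.dvd_iff_le.2 le_sup_right)
    have h1 : (1 : R) ∈ x ⊔ y := by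
      rw [hcop]
      exact Submodule.mem_top
    obtain ⟨i, hi, j, hj, hij⟩ := Submodule.mem_sup.1 h1
    refine ⟨r * j + s * i, ?_⟩
    rw [Ideal.mul_eq_inf_of_isCoprime (Ideal.isCoprime_iff_sup_eq.2 hcop)]
    refine ⟨pow_sub_mem x l hr ?_, pow_sub_mem y l hs ?_⟩
    · have e : (r * j + s * i) - r = (s - r) * i := by
        have hj' : j = 1 - i := by linear_combination hij
        rw [hj']
        ring
      rw [e]
      exact x.mul_mem_left _ hi
    · have e : (r * j + s * i) - s = (r - s) * j := by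
        have hi' : i = 1 - j := by linear_combination hij
        rw [hi']
        ring
      rw [e]
      exact y.mul_mem_left _ hj

/-- **R2.** If `L` contains a primitive `l ^ J`-th root of unity and all prime ideals `p ∣ G` of
`K` are prime to `l` and to `x` with `N p ≢ 1` mod `l ^ J`, then `x` is an `l`-th power modulo all
powers of `G 𝓞_L`. -/
theorem exists_pow_sub_mem {K L : Type*} [Field K] [NumberField K] [Field L] [NumberField L]
    [Algebra K L] {l J : ℕ} (hl : l.Prime) {ζ : L} (hζ : IsPrimitiveRoot ζ (l ^ J))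
    {G : Ideal (𝓞 K)} (hG : G ≠ ⊥) {x : 𝓞 K}
    (h : ∀ p : Ideal (𝓞 K), p.IsPrime → G ≤ p →
      (l : 𝓞 K) ∉ p ∧ x ∉ p ∧ ¬ Ideal.absNorm p ≡ 1 [MOD l ^ J]) (n : ℕ) :
    ∃ r : 𝓞 L, r ^ l - algebraMap (𝓞 K) (𝓞 L) x ∈ (G.map (algebraMap (𝓞 K) (𝓞 L))) ^ n := by
  classical
  have hinj : Function.Injective (algebraMap (𝓞 K) (𝓞 L)) :=
    FaithfulSMul.algebraMap_injective (𝓞 K) (𝓞 L)
  have hI : (G.map (algebraMap (𝓞 K) (𝓞 L))) ^ n ≠ 0 := by
    apply pow_ne_zero
    rw [Ne, Ideal.zero_eq_bot, Ideal.map_eq_bot_iff_of_injective hinj]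
    exact hG
  obtain ⟨r, hr⟩ := crt_pow (c := algebraMap (𝓞 K) (𝓞 L) x) hl.pos _ hI (by
    intro q hq hle
    have hGq : G.map (algebraMap (𝓞 K) (𝓞 L)) ≤ q := by
      rcases Nat.eq_zero_or_pos n with rfl | hn
      · exfalso
        apply hq.ne_top
        rw [pow_zero, Ideal.one_eq_top, top_le_iff] at hle
        exact hle
      · exact (hq.pow_le_iff hn.ne').1 hle
    have hGp : G ≤ q.comap (algebraMap (𝓞 K) (𝓞 L)) := Ideal.map_le_iff_le_comap.1 hGq
    have hp : (q.comap (algebraMap (𝓞 K) (𝓞 L))).IsPrime := Ideal.IsPrime.comap _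
    have hp0 : q.comap (algebraMap (𝓞 K) (𝓞 L)) ≠ ⊥ := by
      intro h0
      rw [h0, le_bot_iff] at hGp
      exact hG hGp
    obtain ⟨h2, hx, hn⟩ := h _ hp hGp
    refine ⟨?_, hx, pow_res hl hζ hp hp0 h2 hn hq rfl hx⟩
    intro h5
    apply h2
    rw [Ideal.mem_comap, map_natCast]
    exact h5)
  refine ⟨r, ?_⟩
  have := neg_mem hr
  rwa [neg_sub] at this

end Pool.Agent.Helper12.SB
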